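import Pool.Agent.LeftAct.Seq

/-! A Borel family of pairwise distinct left cosets of a closed subgroup which is not open. -/

set_option autoImplicit false
set_option linter.unusedSectionVars false

open Topology Set Metric

namespace Pool.Agent.LeftAct

universe u v

section scheme

variable {G : Type u} [Group G] [MetricSpace G] [IsTopologicalGroup G]

/-- Generic points in finitely many open sets lie in distinct cosets. -/
theorem exists_generic_points (H : Subgroup G) (hc : IsClosed (H : Set G))
    (ho : ¬ IsOpen (H : Set G)) {ι : Type} (s : Finset ι) (U : ι → Set G)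
    (hU : ∀ i, IsOpen (U i)) (hne : ∀ i, (U i).Nonempty) :
    ∃ x : ι → G, (∀ i, x i ∈ U i) ∧ ∀ i ∈ s, ∀ j ∈ s, i ≠ j → (x i)⁻¹ * x j ∉ H := by
  classical
  induction s using Finset.induction_on with
  | empty =>
    choose x hx using hne
    exact ⟨x, hx, by simp⟩
  | insert a s has ih =>
    obtain ⟨x, hxU, hx⟩ := ih
    obtain ⟨u, hu⟩ := hne a
    obtain ⟨c, hc1, hc2⟩ := avoid_of_not_isOpen H hc ho (s.image fun i => ((x i)⁻¹ * u, (1 : G)))
      {c | u * c ∈ U a} (by
        refine ((hU a).preimage (continuous_const_mul u)).mem_nhds ?_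
        show u * 1 ∈ U a
        rwa [mul_one])
    have hc3 : ∀ i ∈ s, (x i)⁻¹ * (u * c) ∉ H := by
      intro i hi h
      apply hc2 ((x i)⁻¹ * u, 1) (Finset.mem_image_of_mem _ hi)
      simpa [mul_assoc] using h
    refine ⟨Function.update x a (u * c), fun i => ?_, fun i hi j hj hij => ?_⟩
    · by_cases hia : i = a
      · subst hia
        simpa using hc1
      · simpa [Function.update_of_ne hia] using hxU i
    · by_cases hia : i = a
      · subst hia
        have hjs : j ∈ s := (Finset.mem_insert.1 hj).resolve_left fun h => hij h.symm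
        rw [Function.update_self, Function.update_of_ne (Ne.symm hij)]
        intro h
        apply hc3 j hjs
        have := H.inv_mem h
        simpa using this
      · have his : i ∈ s := (Finset.mem_insert.1 hi).resolve_left hia
        rw [Function.update_of_ne hia]
        by_cases hja : j = a
        · subst hja
          rw [Function.update_self]
          exact hc3 i his
        · have hjs : j ∈ s := (Finset.mem_insert.1 hj).resolve_left hja
          rw [Function.update_of_ne hja]
          exact hx i his j hjs hij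

/-- Around points in distinct cosets there are balls which do not meet a common coset. -/
theorem exists_radius (H : Subgroup G) (hc : IsClosed (H : Set G)) {ι : Type} [Finite ι]
    (x : ι → G) (hx : ∀ i j, i ≠ j → (x i)⁻¹ * x j ∉ H) (U : ι → Set G)
    (hU : ∀ i, IsOpen (U i)) (hxU : ∀ i, x i ∈ U i) {ε : ℝ} (hε : 0 < ε) :
    ∃ r : ℝ, 0 < r ∧ r ≤ ε ∧ (∀ i, closedBall (x i) r ⊆ U i) ∧
      ∀ i j, i ≠ j → ∀ y ∈ closedBall (x i) r, ∀ z ∈ closedBall (x j) r, y⁻¹ * z ∉ H := by
  have h1 : ∀ᶠ r : ℝ in 𝓝[>] 0, r ≤ ε := by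
    filter_upwards [Ioc_mem_nhdsGT hε] with r hr using hr.2
  have h2 : ∀ᶠ r : ℝ in 𝓝[>] 0, ∀ i, closedBall (x i) r ⊆ U i := by
    refine Filter.eventually_all.2 fun i => ?_
    obtain ⟨δ, hδ, hδU⟩ := Metric.isOpen_iff.1 (hU i) (x i) (hxU i)
    filter_upwards [Ioo_mem_nhdsGT hδ] with r hr
    exact (closedBall_subset_ball hr.2).trans hδU
  have h3 : ∀ᶠ r : ℝ in 𝓝[>] 0, ∀ i j, i ≠ j →
      ∀ y ∈ closedBall (x i) r, ∀ z ∈ closedBall (x j) r, y⁻¹ * z ∉ H := by
    refine Filter.eventually_all.2 fun i => Filter.eventually_all.2 fun j => ?_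
    by_cases hij : i = j
    · filter_upwards with r h
      exact absurd hij h
    · have hcont : ContinuousAt (fun p : G × G => p.1⁻¹ * p.2) (x i, x j) :=
        (continuous_fst.inv.mul continuous_snd).continuousAt
      have hmem : ((H : Set G)ᶜ) ∈ 𝓝 ((fun p : G × G => p.1⁻¹ * p.2) (x i, x j)) :=
        hc.isOpen_compl.mem_nhds (hx i j hij)
      have h4 := hcont.preimage_mem_nhds hmem
      obtain ⟨δ, hδ, hδU⟩ := Metric.mem_nhds_iff.1 h4
      filter_upwards [Ioo_mem_nhdsGT hδ] with r hr _ y hy z hz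
      refine hδU (show (y, z) ∈ ball (x i, x j) δ from ?_)
      rw [mem_ball, Prod.dist_eq]
      exact max_lt (lt_of_le_of_lt hy hr.2) (lt_of_le_of_lt hz hr.2)
  obtain ⟨r, ⟨⟨hr1, hr2⟩, hr3⟩, hr0⟩ := (((h1.and h2).and h3).and self_mem_nhdsWithin).exists
  exact ⟨r, hr0, hr1, hr2, hr3⟩

/-- The data kept at a level of the scheme: centres and a positive radius. -/
abbrev Level (G : Type u) (n : ℕ) : Type u :=
  {p : ((Fin n → Bool) → G) × ℝ // 0 < p.2}

/-- The relation between a level and the next one. -/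
def NextLevel (H : Subgroup G) (n : ℕ) (p : Level G n) (q : Level G (n + 1)) : Prop :=
  q.1.2 ≤ p.1.2 / 2 ∧
  (∀ s, closedBall (q.1.1 s) q.1.2 ⊆ ball (p.1.1 fun i => s i.castSucc) p.1.2) ∧
  ∀ s t, s ≠ t → ∀ y ∈ closedBall (q.1.1 s) q.1.2, ∀ z ∈ closedBall (q.1.1 t) q.1.2,
    y⁻¹ * z ∉ H

theorem exists_nextLevel (H : Subgroup G) (hc : IsClosed (H : Set G))
    (ho : ¬ IsOpen (H : Set G)) (n : ℕ) (p : Level G n) : ∃ q, NextLevel H n p q := by
  obtain ⟨x, hxU, hx⟩ := exists_generic_points H hc ho (Finset.univ : Finset (Fin (n + 1) → Bool))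
    (fun s => ball (p.1.1 fun i => s i.castSucc) p.1.2) (fun s => isOpen_ball)
    (fun s => ⟨_, mem_ball_self p.2⟩)
  obtain ⟨r, hr0, hr, hrU, hrH⟩ := exists_radius H hc x
    (fun i j hij => hx i (Finset.mem_univ i) j (Finset.mem_univ j) hij)
    (fun s => ball (p.1.1 fun i => s i.castSucc) p.1.2) (fun s => isOpen_ball) hxU
    (half_pos p.2)
  exact ⟨⟨(x, r), hr0⟩, hr, hrU, hrH⟩

end scheme

/-- A Borel map from Cantor space to `G` which meets every left coset of `H` at most once. -/
theorem exists_cantor {G : Type u} [Group G] [TopologicalSpace G] [IsTopologicalGroup G]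
    [PolishSpace G] [MeasurableSpace G] [BorelSpace G] (H : Subgroup G)
    (hc : IsClosed (H : Set G)) (ho : ¬ IsOpen (H : Set G)) :
    ∃ q : (ℕ → Bool) → G, Measurable q ∧ ∀ α β, α ≠ β → (q α)⁻¹ * q β ∉ H := by
  let _ := TopologicalSpace.upgradeIsCompletelyMetrizable G
  choose next hnext using exists_nextLevel H hc ho
  let L : (n : ℕ) → Level G n := fun n =>
    Nat.rec (motive := fun n => Level G n) ⟨(fun _ => 1, 1), one_pos⟩ (fun n p => next n p) n
  have hL : ∀ n, NextLevel H n (L n) (L (n + 1)) := fun n => hnext n (L n)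
  let r : ℕ → ℝ := fun n => (L n).1.2
  let x : ℕ → (ℕ → Bool) → G := fun n α => (L n).1.1 fun i => α i
  have hr0 : ∀ n, 0 < r n := fun n => (L n).2
  have hr2 : ∀ n, r (n + 1) ≤ r n / 2 := fun n => (hL n).1
  have hr : ∀ n, r n ≤ (1 / 2 : ℝ) ^ n := by
    intro n
    induction n with
    | zero => simp [r, L]
    | succ n ih =>
      calc r (n + 1) ≤ r n / 2 := hr2 n
        _ ≤ (1 / 2) ^ n / 2 := by linarith
        _ = (1 / 2) ^ (n + 1) := by ring
  have hsub : ∀ n α, closedBall (x (n + 1) α) (r (n + 1)) ⊆ ball (x n α) (r n) := fun n α =>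
    (hL n).2.1 fun i => α i
  have hsub2 : ∀ n m α, n ≤ m → closedBall (x m α) (r m) ⊆ closedBall (x n α) (r n) := by
    intro n m α hnm
    induction m, hnm using Nat.le_induction with
    | base => exact subset_rfl
    | succ m _ ih => exact ((hsub m α).trans ball_subset_closedBall).trans ih
  have hself : ∀ n α, x n α ∈ closedBall (x n α) (r n) := fun n α =>
    mem_closedBall_self (hr0 n).le
  have hcauchy : ∀ α, CauchySeq fun n => x n α := by
    intro α
    refine cauchySeq_of_le_geometric (1 / 2) 1 (by norm_num) fun n => ?_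
    have h1 := hsub2 n (n + 1) α (Nat.le_succ n) (hself (n + 1) α)
    rw [dist_comm, one_mul]
    exact (mem_closedBall.1 h1).trans (hr n)
  choose q hq using fun α => cauchySeq_tendsto_of_complete (hcauchy α)
  have hmem : ∀ n α, q α ∈ closedBall (x n α) (r n) := by
    intro n α
    refine isClosed_closedBall.mem_of_tendsto (hq α) ?_
    filter_upwards [Filter.eventually_ge_atTop n] with m hm
    exact hsub2 n m α hm (hself m α)
  refine ⟨q, ?_, ?_⟩
  · refine measurable_of_tendsto_metrizable (f := x) (fun n => ?_) (tendsto_pi_nhds.2 hq)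
    have h1 : Measurable fun α : ℕ → Bool => fun i : Fin n => α i :=
      measurable_pi_lambda _ fun i => measurable_pi_apply _
    exact (measurable_of_countable (L n).1.1).comp h1
  · intro α β hαβ
    obtain ⟨n, hn⟩ := Function.ne_iff.1 hαβ
    refine (hL n).2.2 (fun i => α i) (fun i => β i) ?_ (q α) (hmem (n + 1) α) (q β)
      (hmem (n + 1) β)
    intro h
    exact hn (congrFun h (Fin.last n))

end Pool.Agent.LeftAct
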