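import Mathlib

/-! The left action of a Polish group on its closed subsets: definitions. -/

set_option autoImplicit false

open TopologicalSpace

namespace Pool.Agent.LeftAct

universe u v

/-- The Effros Borel structure on the space of closed subsets of `G`: it is generated by the sets
`{F | F ∩ U ≠ ∅}` for `U` open. -/
@[instance_reducible] def effros (G : Type u) [TopologicalSpace G] : MeasurableSpace (Closeds G) :=
  MeasurableSpace.generateFrom
    {s | ∃ U : Set G, IsOpen U ∧ s = {F : Closeds G | ((F : Set G) ∩ U).Nonempty}}

/-- The left translate `gF` of a closed set `F`. -/
def translate {G : Type u} [Group G] [TopologicalSpace G] [IsTopologicalGroup G] (g : G)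
    (F : Closeds G) : Closeds G :=
  ⟨(fun h => g * h) '' (F : Set G), isClosedMap_mul_left g _ F.isClosed⟩

/-- The orbit equivalence relation `E_a` of the left action of `G` on its closed subsets is
universal for the orbit equivalence relations of Borel actions of `G` on standard Borel spaces:
each of these has a Borel e.r. embedding into `E_a`. -/
def LeftActionUniversal (G : Type u) [Group G] [TopologicalSpace G] [IsTopologicalGroup G]
    [MeasurableSpace G] : Prop :=
  ∀ (X : Type v) [MeasurableSpace X] [StandardBorelSpace X] [MulAction G X],
    (Measurable fun p : G × X => p.1 • p.2) →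
      ∃ f : X → Closeds G, @Measurable X (Closeds G) _ (effros G) f ∧ Function.Injective f ∧
        ∀ x y, (∃ g : G, g • y = x) ↔ ∃ g : G, translate g (f y) = f x

end Pool.Agent.LeftAct
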