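import Mathlib

/-! Borel actions of compact groups: countably many invariant Borel sets separate the orbits. -/

set_option autoImplicit false
set_option linter.unusedSectionVars false

open Topology Set MeasureTheory

namespace Pool.Agent.LeftAct

universe u v

variable {G : Type u} {X : Type v} [Group G] [TopologicalSpace G] [IsTopologicalGroup G]
  [PolishSpace G] [MeasurableSpace G] [BorelSpace G] [MeasurableSpace X] [StandardBorelSpace X]
  [MulAction G X]

/-- For a compact subgroup `N`, there are countably many `N` invariant Borel sets which separate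
the `N` orbits. -/
theorem exists_invariants (hact : Measurable fun p : G × X => p.1 • p.2) (N : Subgroup G)
    (hN : IsCompact (N : Set G)) :
    ∃ A : ℕ → Set X, (∀ k, MeasurableSet (A k)) ∧ (∀ k, ∀ n ∈ N, ∀ x, n • x ∈ A k ↔ x ∈ A k) ∧
      ∀ x y, (∀ k, x ∈ A k ↔ y ∈ A k) → ∃ n ∈ N, n • x = y := by
  obtain ⟨ι, hι⟩ := exists_measurableEmbedding_real X
  have hNc : IsClosed (N : Set G) := hN.isClosed
  have : CompactSpace N := isCompact_iff_compactSpace.1 hN
  have : PolishSpace N := hNc.polishSpace
  let μ : Measure N := Measure.haarMeasure ⊤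
  have hμ : μ univ = 1 := by
    have := Measure.haarMeasure_self (K₀ := (⊤ : TopologicalSpace.PositiveCompacts N))
    simpa [μ] using this
  have : IsProbabilityMeasure μ := ⟨hμ⟩
  have : μ.IsMulLeftInvariant := Measure.isMulLeftInvariant_haarMeasure _
  let γ : X → N → ℝ := fun x m => ι ((m : G)⁻¹ • x)
  have hγ2 : Measurable fun p : X × N => γ p.1 p.2 := by
    refine hι.measurable.comp (hact.comp (Measurable.prodMk ?_ measurable_fst))
    exact (measurable_subtype_coe.comp measurable_snd).inv
  have hγ : ∀ x, Measurable (γ x) := fun x => hγ2.comp measurable_prodMk_left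
  let θ : X → ℚ × ℚ → ENNReal := fun x r => μ {m | γ x m ∈ Ioo (r.1 : ℝ) r.2}
  have hθ : Measurable θ := by
    refine measurable_pi_lambda _ fun r => ?_
    have hs : MeasurableSet {p : X × N | γ p.1 p.2 ∈ Ioo (r.1 : ℝ) r.2} :=
      hγ2 measurableSet_Ioo
    exact measurable_measure_prodMk_left hs
  have hinv : ∀ n ∈ N, ∀ x, θ (n • x) = θ x := by
    intro n hn x
    funext r
    have h1 : {m : N | γ (n • x) m ∈ Ioo (r.1 : ℝ) r.2} =
        (fun m => (⟨n, hn⟩ : N)⁻¹ * m) ⁻¹' {m : N | γ x m ∈ Ioo (r.1 : ℝ) r.2} := by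
      ext m
      show ι ((m : G)⁻¹ • n • x) ∈ Ioo (r.1 : ℝ) r.2 ↔
        ι (((((⟨n, hn⟩ : N)⁻¹ * m : N)) : G)⁻¹ • x) ∈ Ioo (r.1 : ℝ) r.2
      rw [smul_smul]
      simp
    show μ {m : N | γ (n • x) m ∈ Ioo (r.1 : ℝ) r.2} = μ {m : N | γ x m ∈ Ioo (r.1 : ℝ) r.2}
    rw [h1, measure_preimage_mul]
  have hsep : ∀ x y, θ x = θ y → ∃ n ∈ N, n • x = y := by
    intro x y hxy
    have hmap : Measure.map (γ x) μ = Measure.map (γ y) μ := by
      have : IsProbabilityMeasure (Measure.map (γ x) μ) :=
        Measure.isProbabilityMeasure_map (hγ x).aemeasurable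
      refine Real.measure_ext_Ioo_rat fun a b => ?_
      rw [Measure.map_apply (hγ x) measurableSet_Ioo, Measure.map_apply (hγ y) measurableSet_Ioo]
      exact congrFun hxy (a, b)
    have hax : AnalyticSet (range (γ x)) := by
      rw [← image_univ]
      exact MeasurableSet.univ.analyticSet_image (hγ x)
    have hay : AnalyticSet (range (γ y)) := by
      rw [← image_univ]
      exact MeasurableSet.univ.analyticSet_image (hγ y)
    by_cases hd : Disjoint (range (γ x)) (range (γ y))
    · obtain ⟨B, hBx, hBy, hB⟩ := hax.measurablySeparable hay hd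
      have h1 : Measure.map (γ x) μ B = 1 := by
        rw [Measure.map_apply (hγ x) hB]
        have : γ x ⁻¹' B = univ := eq_univ_of_forall fun m => hBx (mem_range_self m)
        rw [this, hμ]
      have h2 : Measure.map (γ y) μ B = 0 := by
        rw [Measure.map_apply (hγ y) hB]
        have : γ y ⁻¹' B = ∅ := by
          rw [eq_empty_iff_forall_notMem]
          intro m hm
          exact (disjoint_left.1 hBy (mem_range_self m)) hm
        rw [this, measure_empty]
      rw [hmap, h2] at h1
      exact absurd h1 zero_ne_one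
    · obtain ⟨t, ⟨m, hm⟩, ⟨m', hm'⟩⟩ := not_disjoint_iff.1 hd
      have h1 : (m : G)⁻¹ • x = (m' : G)⁻¹ • y := hι.injective (hm.trans hm'.symm)
      refine ⟨(m' : G) * (m : G)⁻¹, N.mul_mem m'.2 (N.inv_mem m.2), ?_⟩
      rw [mul_smul, h1, smul_inv_smul]
  obtain ⟨Φ, hΦ, Φinj⟩ :=
    MeasurableSpace.measurable_injection_nat_bool_of_countablySeparated (ℚ × ℚ → ENNReal)
  refine ⟨fun k => {x | Φ (θ x) k = true}, fun k => ?_, fun k n hn x => ?_, fun x y hxy => ?_⟩
  · exact ((measurable_pi_apply k).comp (hΦ.comp hθ)) (measurableSet_singleton true)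
  · show Φ (θ (n • x)) k = true ↔ Φ (θ x) k = true
    rw [hinv n hn x]
  · apply hsep
    apply Φinj
    funext k
    exact Bool.eq_iff_iff.2 (hxy k)

/-- Points of one orbit of a finite group can be told apart by a Borel function with natural
number values. -/
theorem exists_index (hact : Measurable fun p : G × X => p.1 • p.2) (N : Subgroup G)
    (hN : (N : Set G).Finite) :
    ∃ i : X → ℕ, Measurable i ∧ ∀ x y, i x = i y → (∃ n ∈ N, n • x = y) → x = y := by
  classical
  obtain ⟨ι, hι⟩ := exists_measurableEmbedding_real X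
  have : Finite N := hN
  have := Fintype.ofFinite N
  have hm : ∀ g : G, Measurable fun x : X => g • x := fun g => hact.comp measurable_prodMk_left
  let i : X → ℕ := fun x => ∑ n : N, if ι ((n : G) • x) < ι x then 1 else 0
  have hi : Measurable i := by
    refine Finset.measurable_sum _ fun n _ => ?_
    refine Measurable.ite ?_ measurable_const measurable_const
    exact measurableSet_lt (hι.measurable.comp (hm n)) hι.measurable
  have key : ∀ x y, (∃ n ∈ N, n • x = y) → ι x < ι y → i x < i y := by
    rintro x y ⟨n, hn, rfl⟩ hlt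
    have h1 : i (n • x) = ∑ m : N, if ι ((m : G) • x) < ι (n • x) then 1 else 0 := by
      show (∑ m : N, if ι ((m : G) • n • x) < ι (n • x) then 1 else 0) = _
      refine Fintype.sum_equiv (Equiv.mulRight (⟨n, hn⟩ : N)) _ _ fun m => ?_
      simp [mul_smul]
    rw [h1]
    show (∑ m : N, if ι ((m : G) • x) < ι x then 1 else 0) < _
    refine Finset.sum_lt_sum (fun m _ => ?_) ⟨1, Finset.mem_univ _, ?_⟩
    · by_cases h2 : ι ((m : G) • x) < ι x
      · simp [h2, h2.trans hlt]
      · simp [h2]
    · simp [hlt]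
  refine ⟨i, hi, fun x y hxy hn => ?_⟩
  by_contra hne
  have hne' : ι x ≠ ι y := fun h => hne (hι.injective h)
  rcases lt_or_gt_of_ne hne' with h | h
  · exact absurd hxy (key x y hn h).ne
  · obtain ⟨n, hnN, rfl⟩ := hn
    exact absurd hxy.symm (key (n • x) x ⟨n⁻¹, N.inv_mem hnN, by simp⟩ h).ne

end Pool.Agent.LeftAct
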