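import Mathlib

/-! A sequence of right cosets of a closed subgroup of infinite index whose union has few
left symmetries. -/

set_option autoImplicit false
set_option linter.unusedSectionVars false

open Topology Set Pointwise

namespace Pool.Agent.LeftAct

universe u

/-- Strong recursion along the natural numbers, for a requirement which only looks at the
values chosen before. -/
noncomputable def build {α : Type u} (step : ℕ → (ℕ → α) → α) (d : α) (n : ℕ) : α :=
  step n fun i => if _h : i < n then build step d i else d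
termination_by n

theorem exists_seq {α : Type u} [Nonempty α] (P : ℕ → (ℕ → α) → α → Prop)
    (hloc : ∀ n f g a, (∀ i, i < n → f i = g i) → P n f a → P n g a)
    (h : ∀ n f, ∃ a, P n f a) : ∃ c : ℕ → α, ∀ n, P n c (c n) := by
  choose step hstep using h
  obtain ⟨d⟩ := (inferInstance : Nonempty α)
  refine ⟨build step d, fun n => ?_⟩
  have h1 : build step d n = step n fun i => if _h : i < n then build step d i else d := by
    rw [build]
  have h2 := hstep n fun i => if _h : i < n then build step d i else d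
  rw [← h1] at h2
  refine hloc n _ _ _ ?_ h2
  intro i hi
  simp [hi]

section avoid

variable {G : Type u} [Group G]

/-- B. H. Neumann's lemma, for two sided translates of one subgroup of infinite index. -/
theorem avoid_of_index_zero (H : Subgroup G) (hH : H.index = 0) (T : Finset (G × G)) :
    ∃ c : G, ∀ p ∈ T, p.1 * c * p.2 ∉ H := by
  by_contra hcon
  have hcon' : ∀ c : G, ∃ p ∈ T, p.1 * c * p.2 ∈ H := by
    intro c
    by_contra h
    exact hcon ⟨c, fun p hp hc => h ⟨p, hp, hc⟩⟩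
  have hcov : ⋃ p ∈ T, (p.1⁻¹ * p.2⁻¹) •
      ((H.map (MulAut.conj p.2).toMonoidHom : Subgroup G) : Set G) = Set.univ := by
    refine Set.eq_univ_of_forall fun c => ?_
    obtain ⟨p, hp, hc⟩ := hcon' c
    refine mem_iUnion₂.2 ⟨p, hp, ?_⟩
    rw [mem_smul_set_iff_inv_smul_mem]
    refine ⟨p.1 * c * p.2, hc, ?_⟩
    simp only [MulEquiv.toMonoidHom_eq_coe, MonoidHom.coe_coe, MulAut.conj_apply, smul_eq_mul]
    group
  obtain ⟨p, _, hfin⟩ := Subgroup.exists_finiteIndex_of_leftCoset_cover hcov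
  apply hfin.index_ne_zero
  have := Subgroup.index_map_equiv H (MulAut.conj p.2)
  rw [← hH, ← this]
  rfl

/-- Avoiding finitely many translates of a closed subgroup which is not open, near the
identity. -/
theorem avoid_of_not_isOpen [TopologicalSpace G] [IsTopologicalGroup G] (H : Subgroup G)
    (hc : IsClosed (H : Set G)) (ho : ¬ IsOpen (H : Set G)) (T : Finset (G × G)) (U : Set G)
    (hU : U ∈ 𝓝 (1 : G)) : ∃ c ∈ U, ∀ p ∈ T, p.1 * c * p.2 ∉ H := by
  have hd : Dense ((H : Set G)ᶜ) := by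
    rw [← interior_eq_empty_iff_dense_compl, eq_empty_iff_forall_notMem]
    intro x hx
    exact ho (H.isOpen_of_mem_nhds (mem_interior_iff_mem_nhds.1 hx))
  have key : ∀ T : Finset (G × G), IsOpen {c : G | ∀ p ∈ T, p.1 * c * p.2 ∉ H} ∧
      Dense {c : G | ∀ p ∈ T, p.1 * c * p.2 ∉ H} := by
    classical
    intro T
    induction T using Finset.induction_on with
    | empty => simp
    | insert q T _ ih =>
      let φ : G ≃ₜ G := (Homeomorph.mulLeft q.1).trans (Homeomorph.mulRight q.2)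
      have h1 : IsOpen (φ ⁻¹' ((H : Set G)ᶜ)) := hc.isOpen_compl.preimage φ.continuous
      have h2 : Dense (φ ⁻¹' ((H : Set G)ᶜ)) := hd.preimage φ.isOpenMap
      have h3 : {c : G | ∀ p ∈ insert q T, p.1 * c * p.2 ∉ H} =
          φ ⁻¹' ((H : Set G)ᶜ) ∩ {c : G | ∀ p ∈ T, p.1 * c * p.2 ∉ H} := by
        ext c
        constructor
        · intro h
          exact ⟨h q (Finset.mem_insert_self q T), fun p hp => h p (Finset.mem_insert_of_mem hp)⟩
        · rintro ⟨h, h'⟩ p hp
          rcases Finset.mem_insert.1 hp with rfl | hp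
          · exact h
          · exact h' p hp
      rw [h3]
      exact ⟨h1.inter ih.1, h2.inter_of_isOpen_left ih.2 h1⟩
  obtain ⟨c, hcU, hcT⟩ := (key T).2.inter_nhds_nonempty hU
  exact ⟨c, hcT, hcU⟩

end avoid

section seq

variable {G : Type u} [Group G]

/-- The multipliers looked at when the `n`th element of the sequence is chosen. -/
def Mult (e c : ℕ → G) (n : ℕ) : Set G :=
  {x | x = 1 ∨ (∃ m < n, x = c m) ∨ ∃ m ≤ n, x = e m}

/-- The requirement on the `n`th element of the sequence. -/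
def Req (H : Subgroup G) (e : ℕ → G) (U : ℕ → Set G) (n : ℕ) (c : ℕ → G) (a : G) : Prop :=
  a ∈ U n ∧ ∀ x ∈ Mult e c n, x * a ∉ H ∧ ∀ k < n, x * a * (c k)⁻¹ ∉ H ∧ a * (x * c k)⁻¹ ∉ H

theorem exists_req_seq (H : Subgroup G) (e : ℕ → G) (U : ℕ → Set G)
    (hav : ∀ (n : ℕ) (T : Finset (G × G)), ∃ a ∈ U n, ∀ p ∈ T, p.1 * a * p.2 ∉ H) :
    ∃ c : ℕ → G, ∀ n, Req H e U n c (c n) := by
  classical
  have : Nonempty G := ⟨1⟩
  refine exists_seq (Req H e U) ?_ ?_
  · intro n f g a hfg h
    have hM : Mult e g n = Mult e f n := by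
      ext x
      unfold Mult
      constructor
      · rintro (h | ⟨m, hm, h⟩ | h)
        · exact Or.inl h
        · exact Or.inr (Or.inl ⟨m, hm, by rw [h, hfg m hm]⟩)
        · exact Or.inr (Or.inr h)
      · rintro (h | ⟨m, hm, h⟩ | h)
        · exact Or.inl h
        · exact Or.inr (Or.inl ⟨m, hm, by rw [h, hfg m hm]⟩)
        · exact Or.inr (Or.inr h)
    refine ⟨h.1, fun x hx => ?_⟩
    rw [hM] at hx
    refine ⟨(h.2 x hx).1, fun k hk => ?_⟩
    rw [← hfg k hk]
    exact (h.2 x hx).2 k hk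
  · intro n f
    let M : Finset G := {1} ∪ (Finset.range n).image f ∪ (Finset.range (n + 1)).image e
    have hM : ∀ x ∈ Mult e f n, x ∈ M := by
      rintro x (h | ⟨m, hm, h⟩ | ⟨m, hm, h⟩)
      · simp [M, h]
      · refine Finset.mem_union_left _ (Finset.mem_union_right _ ?_)
        exact Finset.mem_image.2 ⟨m, Finset.mem_range.2 hm, h.symm⟩
      · refine Finset.mem_union_right _ ?_
        exact Finset.mem_image.2 ⟨m, Finset.mem_range.2 (Nat.lt_succ_of_le hm), h.symm⟩
    let T1 : Finset (G × G) := M.image fun x => (x, 1)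
    let T2 : Finset (G × G) := (M ×ˢ Finset.range n).image fun q => (q.1, (f q.2)⁻¹)
    let T3 : Finset (G × G) := (M ×ˢ Finset.range n).image fun q => (1, (q.1 * f q.2)⁻¹)
    obtain ⟨a, haU, ha⟩ := hav n (T1 ∪ T2 ∪ T3)
    refine ⟨a, haU, fun x hx => ⟨?_, fun k hk => ⟨?_, ?_⟩⟩⟩
    · have := ha (x, 1) (Finset.mem_union_left _ (Finset.mem_union_left _
        (Finset.mem_image.2 ⟨x, hM x hx, rfl⟩)))
      simpa using this
    · exact ha (x, (f k)⁻¹) (Finset.mem_union_left _ (Finset.mem_union_right _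
        (Finset.mem_image.2 ⟨(x, k), Finset.mem_product.2 ⟨hM x hx, Finset.mem_range.2 hk⟩, rfl⟩)))
    · have := ha (1, (x * f k)⁻¹) (Finset.mem_union_right _
        (Finset.mem_image.2 ⟨(x, k), Finset.mem_product.2 ⟨hM x hx, Finset.mem_range.2 hk⟩, rfl⟩))
      simpa using this

variable {H : Subgroup G} {e c : ℕ → G} {U : ℕ → Set G}

theorem Req.notMem (h : ∀ n, Req H e U n c (c n)) (n : ℕ) : c n ∉ H := by
  have := ((h n).2 1 (Or.inl rfl)).1
  simpa using this

theorem Req.lt_notMem (h : ∀ n, Req H e U n c (c n)) {n m : ℕ} (hmn : m < n) :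
    c n * (c m)⁻¹ ∉ H := by
  have := (((h n).2 1 (Or.inl rfl)).2 m hmn).1
  simpa using this

theorem Req.ne_notMem (h : ∀ n, Req H e U n c (c n)) {n m : ℕ} (hmn : n ≠ m) :
    c n * (c m)⁻¹ ∉ H := by
  rcases lt_or_gt_of_ne hmn with h1 | h1
  · intro h2
    apply Req.lt_notMem h h1
    have := H.inv_mem h2
    simpa using this
  · exact Req.lt_notMem h h1

theorem Req.far (h : ∀ n, Req H e U n c (c n)) {n : ℕ} {x : G} (hx : x ∈ Mult e c n)
    (hxH : x ∉ H) : x * c n ∉ H ∧ ∀ k, x * c n * (c k)⁻¹ ∉ H := by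
  refine ⟨((h n).2 x hx).1, fun k => ?_⟩
  rcases lt_trichotomy k n with hk | hk | hk
  · exact (((h n).2 x hx).2 k hk).1
  · subst hk
    simpa using hxH
  · have hx' : x ∈ Mult e c k := by
      rcases hx with h | ⟨m, hm, h⟩ | ⟨m, hm, h⟩
      · exact Or.inl h
      · exact Or.inr (Or.inl ⟨m, hm.trans hk, h⟩)
      · exact Or.inr (Or.inr ⟨m, hm.trans hk.le, h⟩)
    intro h2
    apply (((h k).2 x hx').2 n hk).2
    have := H.inv_mem h2
    simpa [mul_assoc] using this

end seq

/-- The main combinatorial lemma. -/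
theorem exists_good_seq {G : Type u} [Group G] [TopologicalSpace G] [IsTopologicalGroup G]
    [PolishSpace G] (H : Subgroup G) (hc : IsClosed (H : Set G)) (hidx : H.index = 0) :
    ∃ c : ℕ → G, (∀ n, c n ∉ H) ∧ (∀ n m, n ≠ m → c n * (c m)⁻¹ ∉ H) ∧
      (∀ y, y ∉ H → ∃ W ∈ 𝓝 y, {n | ∃ w ∈ W, w * (c n)⁻¹ ∈ H}.Finite) ∧
      (∀ g, g ∉ H → ∃ a, (a ∈ H ∨ ∃ n, Even n ∧ a * (c n)⁻¹ ∈ H) ∧ g * a ∉ H ∧
        ∀ n, g * a * (c n)⁻¹ ∉ H) := by
  by_cases ho : IsOpen (H : Set G)
  · -- `H` is open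
    let e : ℕ → G := TopologicalSpace.denseSeq G
    obtain ⟨c, hcq⟩ := exists_req_seq H e (fun _ => univ) fun n T => by
      obtain ⟨a, ha⟩ := avoid_of_index_zero H hidx T
      exact ⟨a, mem_univ a, ha⟩
    refine ⟨c, Req.notMem hcq, fun n m hnm => Req.ne_notMem hcq hnm, ?_, ?_⟩
    · intro y _
      refine ⟨{w | w * y⁻¹ ∈ H}, ?_, ?_⟩
      · refine IsOpen.mem_nhds (ho.preimage (continuous_mul_const y⁻¹)) ?_
        show y * y⁻¹ ∈ H
        rw [mul_inv_cancel]
        exact H.one_mem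
      · refine Set.Subsingleton.finite ?_
        rintro n ⟨w, hw, hwn⟩ m ⟨w', hw', hwm⟩
        by_contra hnm
        apply Req.ne_notMem hcq hnm
        have h1 : w * y⁻¹ ∈ H := hw
        have h2 : w' * y⁻¹ ∈ H := hw'
        have h3 : c n * (c m)⁻¹ =
            (w * (c n)⁻¹)⁻¹ * (w * y⁻¹) * (w' * y⁻¹)⁻¹ * (w' * (c m)⁻¹) := by group
        rw [h3]
        exact H.mul_mem (H.mul_mem (H.mul_mem (H.inv_mem hwn) h1) (H.inv_mem h2)) hwm
    · intro g hg
      have hopen : IsOpen {x : G | g⁻¹ * x ∈ H} := ho.preimage (continuous_const_mul g⁻¹)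
      have hne : {x : G | g⁻¹ * x ∈ H}.Nonempty := ⟨g, by simp [H.one_mem]⟩
      obtain ⟨x, hx, i, rfl⟩ := (TopologicalSpace.denseRange_denseSeq G).inter_open_nonempty
        _ hopen hne
      have hx' : g⁻¹ * e i ∈ H := hx
      have hei : e i ∉ H := by
        intro h
        apply hg
        have h3 : g = e i * (g⁻¹ * e i)⁻¹ := by group
        rw [h3]
        exact H.mul_mem h (H.inv_mem hx')
      have hfar := Req.far hcq (n := 2 * i) (x := e i)
        (Or.inr (Or.inr ⟨i, by omega, rfl⟩)) hei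
      refine ⟨g⁻¹ * e i * c (2 * i), Or.inr ⟨2 * i, even_two_mul i, ?_⟩, ?_, ?_⟩
      · simpa using hx'
      · have h4 : g * (g⁻¹ * e i * c (2 * i)) = e i * c (2 * i) := by group
        rw [h4]
        exact hfar.1
      · intro n
        have h4 : g * (g⁻¹ * e i * c (2 * i)) = e i * c (2 * i) := by group
        rw [h4]
        exact hfar.2 n
  · -- `H` is not open
    obtain ⟨U, hU⟩ := (𝓝 (1 : G)).exists_antitone_basis
    obtain ⟨c, hcq⟩ := exists_req_seq H (fun _ => 1) U fun n T =>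
      avoid_of_not_isOpen H hc ho T (U n) (hU.1.mem_of_mem trivial)
    refine ⟨c, Req.notMem hcq, fun n m hnm => Req.ne_notMem hcq hnm, ?_, ?_⟩
    · intro y hy
      have hcont : ContinuousAt (fun p : G × G => p.1 * p.2⁻¹) (y, 1) :=
        (continuous_fst.mul continuous_snd.inv).continuousAt
      have hmem : ((H : Set G)ᶜ) ∈ 𝓝 ((fun p : G × G => p.1 * p.2⁻¹) (y, 1)) := by
        refine hc.isOpen_compl.mem_nhds ?_
        show y * 1⁻¹ ∉ H
        simpa using hy
      have h1 := hcont.preimage_mem_nhds hmem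
      rw [nhds_prod_eq, Filter.mem_prod_iff] at h1
      obtain ⟨W, hW, V, hV, hWV⟩ := h1
      obtain ⟨N, -, hN⟩ := hU.1.mem_iff.1 hV
      refine ⟨W, hW, (Set.finite_lt_nat N).subset ?_⟩
      rintro n ⟨w, hw, hwn⟩
      show n < N
      by_contra hcon
      have h2 : c n ∈ V := hN (hU.2 (not_lt.1 hcon) (hcq n).1)
      exact hWV (mk_mem_prod hw h2) hwn
    · intro g hg
      by_cases hgm : ∃ m, g * (c m)⁻¹ ∈ H
      · obtain ⟨m, hm⟩ := hgm
        have hfar := Req.far hcq (n := 2 * (m + 1)) (x := c m)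
          (Or.inr (Or.inl ⟨m, by omega, rfl⟩)) (Req.notMem hcq m)
        refine ⟨c (2 * (m + 1)), Or.inr ⟨2 * (m + 1), even_two_mul _, by simp⟩, ?_, ?_⟩
        · intro h
          apply hfar.1
          have h4 : c m * c (2 * (m + 1)) = (g * (c m)⁻¹)⁻¹ * (g * c (2 * (m + 1))) := by group
          rw [h4]
          exact H.mul_mem (H.inv_mem hm) h
        · intro n h
          apply hfar.2 n
          have h4 : c m * c (2 * (m + 1)) * (c n)⁻¹ =
              (g * (c m)⁻¹)⁻¹ * (g * c (2 * (m + 1)) * (c n)⁻¹) := by group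
          rw [h4]
          exact H.mul_mem (H.inv_mem hm) h
      · refine ⟨1, Or.inl H.one_mem, by simpa using hg, fun n h => hgm ⟨n, by simpa using h⟩⟩

end Pool.Agent.LeftAct
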