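import Mathlib

/-! Category quantifiers and the Becker and Kechris embedding: every Borel action of a Polish group
on a standard Borel space embeds into the left action on sequences of closed sets. -/

set_option autoImplicit false
set_option linter.unusedSectionVars false

open Topology Set

namespace Pool.Agent.LeftAct

universe u v

section category

variable {X : Type u} {K : Type v} [MeasurableSpace X] [TopologicalSpace K] [PolishSpace K]
  [MeasurableSpace K] [BorelSpace K]

/-- In a second countable space, a set which is locally meagre is meagre. -/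
theorem isMeagre_of_locally {S : Set K} {U : Set K}
    (h : ∀ g ∈ U, ∃ V : Set K, IsOpen V ∧ g ∈ V ∧ IsMeagre (V ∩ S)) : IsMeagre (U ∩ S) := by
  obtain ⟨B, hBc, -, hB⟩ := TopologicalSpace.exists_countable_basis K
  have h2 : U ∩ S ⊆ ⋃ V ∈ {V ∈ B | IsMeagre (V ∩ S)}, V ∩ S := by
    rintro g ⟨hgU, hgS⟩
    obtain ⟨V, hV, hgV, hm⟩ := h g hgU
    obtain ⟨W, hW, hgW, hWV⟩ := hB.exists_subset_of_mem_open hgV hV
    exact mem_biUnion (show W ∈ {V ∈ B | IsMeagre (V ∩ S)} from
      ⟨hW, hm.mono (inter_subset_inter_left _ hWV)⟩) ⟨hgW, hgS⟩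
  exact (isMeagre_biUnion (hBc.mono (sep_subset _ _)) fun V hV => hV.2).mono h2

/-- A Borel set is nonmeagre in an open set iff its complement is meagre in some nonempty basic
open subset. -/
theorem not_isMeagre_compl_iff {B : Set (Set K)} (hB : TopologicalSpace.IsTopologicalBasis B)
    (hBe : ∅ ∉ B) {S U : Set K} (hS : MeasurableSet S) (hU : IsOpen U) :
    ¬ IsMeagre (U ∩ Sᶜ) ↔ ∃ V ∈ B, V ⊆ U ∧ IsMeagre (V ∩ S) := by
  constructor
  · intro h
    obtain ⟨O, hO, hSO⟩ := hS.compl.residualEq_isOpen
    have hne : (U ∩ O).Nonempty := by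
      by_contra hcon
      rw [not_nonempty_iff_eq_empty] at hcon
      apply h
      have h1 : {g | g ∈ Sᶜ ↔ g ∈ O} ∈ residual K := Filter.eventuallyEq_set.1 hSO
      show (U ∩ Sᶜ)ᶜ ∈ residual K
      refine Filter.mem_of_superset h1 ?_
      rintro g hg ⟨hgU, hgS⟩
      have : g ∈ U ∩ O := ⟨hgU, hg.1 hgS⟩
      rw [hcon] at this
      exact this
    obtain ⟨g, hg⟩ := hne
    obtain ⟨V, hV, _, hVU⟩ := hB.exists_subset_of_mem_open hg (hU.inter hO)
    refine ⟨V, hV, hVU.trans inter_subset_left, ?_⟩
    have h1 : {g | g ∈ Sᶜ ↔ g ∈ O} ∈ residual K := Filter.eventuallyEq_set.1 hSO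
    show (V ∩ S)ᶜ ∈ residual K
    refine Filter.mem_of_superset h1 ?_
    rintro g hg ⟨hgV, hgS⟩
    exact (hg.2 (hVU hgV).2) hgS
  · rintro ⟨V, hV, hVU, hm⟩ h
    have hVo : IsOpen V := hB.isOpen hV
    have hVne : V.Nonempty := by
      rw [nonempty_iff_ne_empty]
      rintro rfl
      exact hBe hV
    refine not_isMeagre_of_isOpen hVo hVne ?_
    refine ((hm.union (h.mono (inter_subset_inter_left Sᶜ hVU)))).mono ?_
    intro g hg
    by_cases hgS : g ∈ S
    · exact Or.inl ⟨hg, hgS⟩
    · exact Or.inr ⟨hg, hgS⟩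

/-- The set of points over which a section is nonmeagre in `U`. -/
def catSet (B : Set (X × K)) (U : Set K) : Set X := {x | ¬ IsMeagre (U ∩ {k | (x, k) ∈ B})}

theorem mem_catSet {B : Set (X × K)} {U : Set K} {x : X} :
    x ∈ catSet B U ↔ ¬ IsMeagre (U ∩ {k | (x, k) ∈ B}) := Iff.rfl

/-- Measurability of the category quantifier. -/
theorem measurableSet_category {B : Set (X × K)} (hB : MeasurableSet B) :
    ∀ U : Set K, IsOpen U → MeasurableSet (catSet B U) := by
  have hgen : (Prod.instMeasurableSpace : MeasurableSpace (X × K)) =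
      MeasurableSpace.generateFrom (image2 (· ×ˢ ·) {s : Set X | MeasurableSet s}
        {t : Set K | IsOpen t}) := by
    refine (generateFrom_eq_prod (MeasurableSpace.generateFrom_measurableSet (α := X))
      (BorelSpace.measurable_eq (α := K)).symm ?_ ?_).symm
    · exact ⟨fun _ => univ, fun _ => MeasurableSet.univ, iUnion_const _⟩
    · exact ⟨fun _ => univ, fun _ => isOpen_univ, iUnion_const _⟩
  obtain ⟨b, hbc, hbe, hb⟩ := TopologicalSpace.exists_countable_basis K
  have hsec : ∀ t : Set (X × K), MeasurableSet t → ∀ x, MeasurableSet {k | (x, k) ∈ t} :=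
    fun t ht x => measurable_prodMk_left ht
  rw [hgen] at hB
  refine MeasurableSpace.generateFrom_induction _
    (fun s _ => ∀ U : Set K, IsOpen U → MeasurableSet (catSet s U))
    ?_ ?_ ?_ ?_ B hB
  · rintro _ ⟨A, hA, V, hV, rfl⟩ _ U hU
    by_cases hne : (U ∩ V).Nonempty
    · have : catSet (A ×ˢ V) U = A := by
        ext x
        constructor
        · intro hx
          by_contra hxA
          apply hx
          have : U ∩ {k | (x, k) ∈ A ×ˢ V} = ∅ := by
            ext k
            simp [hxA]
          rw [this]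
          exact IsMeagre.empty
        · intro hxA
          have : U ∩ {k | (x, k) ∈ A ×ˢ V} = U ∩ V := by
            ext k
            simp [hxA]
          rw [mem_catSet, this]
          exact not_isMeagre_of_isOpen (hU.inter hV) hne
      show MeasurableSet (catSet (A ×ˢ V) U)
      rw [this]
      exact hA
    · have : catSet (A ×ˢ V) U = ∅ := by
        rw [eq_empty_iff_forall_notMem]
        intro x hx
        apply hx
        have h0 : U ∩ {k | (x, k) ∈ A ×ˢ V} ⊆ (∅ : Set K) := by
          rintro k ⟨hkU, hk⟩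
          exact (hne ⟨k, hkU, (mem_prod.1 hk).2⟩).elim
        exact IsMeagre.empty.mono h0
      show MeasurableSet (catSet (A ×ˢ V) U)
      rw [this]
      exact MeasurableSet.empty
  · intro U _
    have : catSet (∅ : Set (X × K)) U = ∅ := by
      rw [eq_empty_iff_forall_notMem]
      intro x hx
      apply hx
      have h0 : U ∩ {k | (x, k) ∈ (∅ : Set (X × K))} ⊆ (∅ : Set K) := by
        rintro k ⟨_, hk⟩
        exact hk
      exact IsMeagre.empty.mono h0
    rw [this]
    exact MeasurableSet.empty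
  · intro t ht ih U hU
    rw [← hgen] at ht
    have : catSet tᶜ U = ⋃ V ∈ {V ∈ b | V ⊆ U}, (catSet t V)ᶜ := by
      ext x
      have h1 := not_isMeagre_compl_iff hb hbe (hsec t ht x) hU
      constructor
      · intro hx
        obtain ⟨V, hV, hVU, hm⟩ := h1.1 hx
        exact mem_biUnion (show V ∈ {V ∈ b | V ⊆ U} from ⟨hV, hVU⟩) fun h => h hm
      · intro hx
        obtain ⟨V, hV, hxV⟩ := mem_iUnion₂.1 hx
        refine h1.2 ⟨V, hV.1, hV.2, ?_⟩
        by_contra hcon
        exact hxV hcon
    rw [this]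
    exact MeasurableSet.biUnion (hbc.mono (sep_subset _ _)) fun V hV =>
      (ih V (hb.isOpen hV.1)).compl
  · intro s _ ih U hU
    have : catSet (⋃ i, s i) U = ⋃ i, catSet (s i) U := by
      ext x
      constructor
      · intro h
        by_contra hcon
        apply h
        have hcon' : ∀ i, IsMeagre (U ∩ {k | (x, k) ∈ s i}) := by
          intro i
          by_contra hi
          exact hcon (mem_iUnion.2 ⟨i, hi⟩)
        refine (isMeagre_iUnion hcon').mono ?_
        rintro k ⟨hkU, hk⟩
        obtain ⟨i, hi⟩ := mem_iUnion.1 (show (x, k) ∈ ⋃ i, s i from hk)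
        exact mem_iUnion.2 ⟨i, hkU, hi⟩
      · intro hx
        obtain ⟨i, hi⟩ := mem_iUnion.1 hx
        intro hm
        apply hi
        refine hm.mono ?_
        rintro k ⟨hkU, hk⟩
        exact ⟨hkU, show (x, k) ∈ ⋃ i, s i from mem_iUnion.2 ⟨i, hk⟩⟩
    rw [this]
    exact MeasurableSet.iUnion fun i => ih i U hU

/-- The regular closed hull: points near which `S` is everywhere nonmeagre. -/
def hull (S : Set K) : Set K := {g | ∀ V : Set K, IsOpen V → g ∈ V → ¬ IsMeagre (V ∩ S)}

theorem isClosed_hull (S : Set K) : IsClosed (hull S) := by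
  rw [← isOpen_compl_iff, isOpen_iff_forall_mem_open]
  intro g hg
  have : ∃ V : Set K, IsOpen V ∧ g ∈ V ∧ IsMeagre (V ∩ S) := by
    by_contra hcon
    apply hg
    intro V hV hgV hm
    exact hcon ⟨V, hV, hgV, hm⟩
  obtain ⟨V, hV, hgV, hm⟩ := this
  exact ⟨V, fun k hk hk' => hk' V hV hk hm, hV, hgV⟩

theorem hull_inter_nonempty {S U : Set K} (hU : IsOpen U) :
    (hull S ∩ U).Nonempty ↔ ¬ IsMeagre (U ∩ S) := by
  constructor
  · rintro ⟨g, hg, hgU⟩
    exact hg U hU hgU
  · intro h
    by_contra hcon
    apply h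
    refine isMeagre_of_locally fun g hgU => ?_
    by_contra hcon2
    apply hcon
    refine ⟨g, fun V hV hgV hm => hcon2 ⟨V, hV, hgV, hm⟩, hgU⟩

/-- A Borel set is determined by its hull up to a meagre set. -/
theorem meagre_diff_of_hull {S T : Set K} (hS : MeasurableSet S) (hT : MeasurableSet T)
    (h : hull S = hull T) : IsMeagre (S \ T) := by
  obtain ⟨B, _, hBe, hB⟩ := TopologicalSpace.exists_countable_basis K
  -- `S \ T` is meagre near every point
  have key : IsMeagre (univ ∩ (S \ T)) := by
    by_contra hcon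
    have h1 : ¬ IsMeagre (univ ∩ (T ∪ Sᶜ)ᶜ) := by
      have : (T ∪ Sᶜ)ᶜ = S \ T := by
        ext g
        simp [and_comm]
      rw [this]
      exact hcon
    obtain ⟨V, hV, -, hm⟩ :=
      (not_isMeagre_compl_iff hB hBe (hT.union hS.compl) isOpen_univ).1 h1
    have hVo : IsOpen V := hB.isOpen hV
    have hVne : V.Nonempty := by
      rw [nonempty_iff_ne_empty]
      rintro rfl
      exact hBe hV
    have hTm : IsMeagre (V ∩ T) := hm.mono (inter_subset_inter_right _ subset_union_left)
    have hSc : IsMeagre (V ∩ Sᶜ) := hm.mono (inter_subset_inter_right _ subset_union_right)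
    have hSn : ¬ IsMeagre (V ∩ S) := by
      intro hSm
      refine not_isMeagre_of_isOpen hVo hVne ((hSm.union hSc).mono ?_)
      intro g hg
      by_cases hgS : g ∈ S
      · exact Or.inl ⟨hg, hgS⟩
      · exact Or.inr ⟨hg, hgS⟩
    have h2 := (hull_inter_nonempty hVo).2 hSn
    rw [h] at h2
    exact ((hull_inter_nonempty hVo).1 h2) hTm
  rwa [univ_inter] at key

end category

section action

variable {X : Type u} {K : Type v} [MeasurableSpace X] [Group K] [TopologicalSpace K]
  [IsTopologicalGroup K] [PolishSpace K] [MeasurableSpace K] [BorelSpace K]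

/-- Left translation preserves meagre sets. -/
theorem isMeagre_mul_left (k : K) {S : Set K} (h : IsMeagre S) :
    IsMeagre ((fun g => k * g) ⁻¹' S) :=
  h.preimage_of_isOpenMap (continuous_const_mul k) (isOpenMap_mul_left k)

theorem hull_mul_left (k : K) (S : Set K) :
    hull ((fun g => k⁻¹ * g) ⁻¹' S) = (fun g => k * g) '' hull S := by
  have key : ∀ (k : K) (S : Set K) (g : K), g ∈ hull S → k * g ∈ hull ((fun g => k⁻¹ * g) ⁻¹' S) := by
    intro k S g hg V hV hgV hm
    have h1 := isMeagre_mul_left k hm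
    refine hg ((fun g => k * g) ⁻¹' V) (hV.preimage (continuous_const_mul k)) hgV (h1.mono ?_)
    rintro x ⟨hx, hxS⟩
    refine ⟨hx, ?_⟩
    show k⁻¹ * (k * x) ∈ S
    rw [inv_mul_cancel_left]
    exact hxS
  ext g
  constructor
  · intro hg
    refine ⟨k⁻¹ * g, ?_, by simp⟩
    have := key k⁻¹ _ g hg
    have e : (fun g => k⁻¹⁻¹ * g) ⁻¹' ((fun g => k⁻¹ * g) ⁻¹' S) = S := by
      ext x
      simp
    rw [e] at this
    exact this
  · rintro ⟨x, hx, rfl⟩
    exact key k S x hx

/-- **Becker and Kechris**: a Borel action of a Polish group is coded, equivariantly and in a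
Borel way, by the left action on sequences of closed subsets of the group. -/
theorem exists_closed_coding (act : K → X → X)
    (act_mul : ∀ g h x, act (g * h) x = act g (act h x))
    (hact : Measurable fun p : K × X => act p.1 p.2) (A : ℕ → Set X)
    (hA : ∀ n, MeasurableSet (A n)) :
    ∃ F : X → ℕ → Set K, (∀ x n, IsClosed (F x n)) ∧
      (∀ k x n, F (act k x) n = (fun g => k * g) '' F x n) ∧
      (∀ n (U : Set K), IsOpen U → MeasurableSet {x | (F x n ∩ U).Nonempty}) ∧
      (∀ x y, (∀ k n, act k x ∈ A n ↔ act k y ∈ A n) → F x = F y) ∧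
      (∀ x y, F x = F y → ∃ k, ∀ n, act k x ∈ A n ↔ act k y ∈ A n) := by
  let S : X → ℕ → Set K := fun x n => {k | act k⁻¹ x ∈ A n}
  have hSm : ∀ n, MeasurableSet {p : X × K | act p.2⁻¹ p.1 ∈ A n} := by
    intro n
    have h1 : Measurable fun p : X × K => act p.2⁻¹ p.1 :=
      hact.comp ((measurable_inv.comp measurable_snd).prodMk measurable_fst)
    exact h1 (hA n)
  have hSx : ∀ x n, MeasurableSet (S x n) := fun x n => measurable_prodMk_left (hSm n)
  refine ⟨fun x n => hull (S x n), fun x n => isClosed_hull _, ?_, ?_, ?_, ?_⟩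
  · intro k x n
    have hS : S (act k x) n = (fun g => k⁻¹ * g) ⁻¹' S x n := by
      ext g
      show act g⁻¹ (act k x) ∈ A n ↔ act (k⁻¹ * g)⁻¹ x ∈ A n
      rw [← act_mul, mul_inv_rev, inv_inv]
    show hull (S (act k x) n) = _
    rw [hS, hull_mul_left]
  · intro n U hU
    have h1 := measurableSet_category (hSm n) U hU
    convert h1 using 1
    ext x
    exact hull_inter_nonempty hU
  · intro x y hxy
    funext n
    have : S x n = S y n := by
      ext k
      exact hxy k⁻¹ n
    show hull (S x n) = hull (S y n)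
    rw [this]
  · intro x y hxy
    have hxy' : ∀ n, hull (S x n) = hull (S y n) := fun n => congrFun hxy n
    have h1 : ∀ n, IsMeagre ((S x n \ S y n) ∪ (S y n \ S x n)) := fun n =>
      (meagre_diff_of_hull (hSx x n) (hSx y n) (hxy' n)).union
        (meagre_diff_of_hull (hSx y n) (hSx x n) (hxy' n).symm)
    have h2 : IsMeagre (⋃ n, ((S x n \ S y n) ∪ (S y n \ S x n))) := isMeagre_iUnion h1
    have h3 : ∃ k : K, k ∉ ⋃ n, ((S x n \ S y n) ∪ (S y n \ S x n)) := by
      by_contra hcon
      push Not at hcon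
      refine not_isMeagre_of_isOpen (X := K) isOpen_univ ⟨1, trivial⟩ (h2.mono fun k _ => hcon k)
    obtain ⟨k, hk⟩ := h3
    refine ⟨k⁻¹, fun n => ?_⟩
    have h5 : k ∉ (S x n \ S y n) ∪ (S y n \ S x n) := fun h => hk (mem_iUnion.2 ⟨n, h⟩)
    constructor
    · intro hx
      by_contra hy
      exact h5 (Or.inl ⟨hx, hy⟩)
    · intro hy
      by_contra hx
      exact h5 (Or.inr ⟨hy, hx⟩)

end action

end Pool.Agent.LeftAct
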