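import Pool.Agent.LeftAct.Defs
import Pool.Agent.LeftAct.Seq
import Pool.Agent.LeftAct.Cantor
import Pool.Agent.LeftAct.Vaught
import Pool.Agent.LeftAct.Invariants

/-! Universality of the left action on closed subsets. -/

set_option autoImplicit false
set_option linter.unusedSectionVars false

open Topology Set TopologicalSpace

namespace Pool.Agent.LeftAct

universe u v

section pieces

variable {G : Type u} [Group G]

/-- The union of `H` and of the pieces `P k * c k`. -/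
def glue (H : Subgroup G) (c : ℕ → G) (P : ℕ → Set G) : Set G :=
  {y | y ∈ H ∨ ∃ k, y * (c k)⁻¹ ∈ P k}

variable {H : Subgroup G} {c : ℕ → G}

theorem isClosed_glue [TopologicalSpace G] [IsTopologicalGroup G] (hc : IsClosed (H : Set G))
    (hLF : ∀ y, y ∉ H → ∃ W ∈ 𝓝 y, {n | ∃ w ∈ W, w * (c n)⁻¹ ∈ H}.Finite)
    {P : ℕ → Set G} (hP : ∀ k, IsClosed (P k)) (hPH : ∀ k, P k ⊆ H) :
    IsClosed (glue H c P) := by
  rw [← isOpen_compl_iff, isOpen_iff_mem_nhds]
  intro y hy
  have hyH : y ∉ H := fun h => hy (Or.inl h)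
  have hyP : ∀ k, y * (c k)⁻¹ ∉ P k := fun k h => hy (Or.inr ⟨k, h⟩)
  obtain ⟨W, hW, hfin⟩ := hLF y hyH
  have h1 : ((H : Set G)ᶜ) ∈ 𝓝 y := hc.isOpen_compl.mem_nhds hyH
  have h2 : ∀ k, {w : G | w * (c k)⁻¹ ∉ P k} ∈ 𝓝 y := fun k =>
    (((hP k).isOpen_compl).preimage (continuous_mul_const (c k)⁻¹)).mem_nhds (hyP k)
  have h3 : (⋂ k ∈ {n | ∃ w ∈ W, w * (c n)⁻¹ ∈ H}, {w : G | w * (c k)⁻¹ ∉ P k}) ∈ 𝓝 y :=
    (Filter.biInter_mem hfin).2 fun k _ => h2 k
  filter_upwards [hW, h1, h3] with w hw hwH hw3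
  rintro (h | ⟨k, hk⟩)
  · exact hwH h
  · exact (mem_iInter₂.1 hw3 k ⟨w, hw, hPH k hk⟩) hk

theorem mem_glue_piece (hcc : ∀ n m, n ≠ m → c n * (c m)⁻¹ ∉ H) (hcH : ∀ n, c n ∉ H)
    {P : ℕ → Set G} (hPH : ∀ k, P k ⊆ H) {h : G} (hh : h ∈ H) (k : ℕ) :
    h * c k ∈ glue H c P ↔ h ∈ P k := by
  constructor
  · rintro (h1 | ⟨m, hm⟩)
    · exfalso
      apply hcH k
      have : c k = h⁻¹ * (h * c k) := by group
      rw [this]
      exact H.mul_mem (H.inv_mem hh) h1
    · by_cases hkm : k = m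
      · subst hkm
        simpa using hm
      · exfalso
        apply hcc k m hkm
        have : c k * (c m)⁻¹ = h⁻¹ * (h * c k * (c m)⁻¹) := by group
        rw [this]
        exact H.mul_mem (H.inv_mem hh) (hPH m hm)
  · intro h1
    exact Or.inr ⟨k, by simpa using h1⟩

theorem glue_rigid (hcc : ∀ n m, n ≠ m → c n * (c m)⁻¹ ∉ H) (hcH : ∀ n, c n ∉ H)
    (hR : ∀ g, g ∉ H → ∃ a, (a ∈ H ∨ ∃ n, Even n ∧ a * (c n)⁻¹ ∈ H) ∧ g * a ∉ H ∧
        ∀ n, g * a * (c n)⁻¹ ∉ H)
    {P Q : ℕ → Set G} (hPH : ∀ k, P k ⊆ H) (hQH : ∀ k, Q k ⊆ H)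
    (hPe : ∀ k, Even k → P k = H) {g : G}
    (hg : (fun h => g * h) '' glue H c P = glue H c Q) :
    g ∈ H ∧ ∀ k, (fun h => g * h) '' P k = Q k := by
  have hgH : g ∈ H := by
    by_contra hcon
    obtain ⟨a, ha, ha1, ha2⟩ := hR g hcon
    have h1 : a ∈ glue H c P := by
      rcases ha with ha | ⟨n, hn, ha⟩
      · exact Or.inl ha
      · refine Or.inr ⟨n, ?_⟩
        rw [hPe n hn]
        exact ha
    have h2 : g * a ∈ glue H c Q := by
      rw [← hg]
      exact ⟨a, h1, rfl⟩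
    rcases h2 with h2 | ⟨k, h2⟩
    · exact ha1 h2
    · exact ha2 k (hQH k h2)
  refine ⟨hgH, fun k => ?_⟩
  ext y
  constructor
  · rintro ⟨h, hh, rfl⟩
    have hhH := hPH k hh
    have h1 : g * (h * c k) ∈ glue H c Q := by
      rw [← hg]
      exact ⟨h * c k, (mem_glue_piece hcc hcH hPH hhH k).2 hh, rfl⟩
    rw [← mul_assoc] at h1
    exact (mem_glue_piece hcc hcH hQH (H.mul_mem hgH hhH) k).1 h1
  · intro hy
    have hyH := hQH k hy
    have h1 : y * c k ∈ glue H c Q := (mem_glue_piece hcc hcH hQH hyH k).2 hy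
    rw [← hg] at h1
    obtain ⟨z, hz, hzy⟩ := h1
    have hz' : z = (g⁻¹ * y) * c k := by
      have : g * z = y * c k := hzy
      rw [mul_assoc, ← this]
      group
    rw [hz'] at hz
    refine ⟨g⁻¹ * y, (mem_glue_piece hcc hcH hPH (H.mul_mem (H.inv_mem hgH) hyH) k).1 hz, ?_⟩
    simp

theorem image_glue {P Q : ℕ → Set G} {g : G} (hg : g ∈ H)
    (hPQ : ∀ k, (fun h => g * h) '' P k = Q k) :
    (fun h => g * h) '' glue H c P = glue H c Q := by
  ext y
  constructor
  · rintro ⟨z, hz | ⟨k, hk⟩, rfl⟩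
    · exact Or.inl (H.mul_mem hg hz)
    · refine Or.inr ⟨k, ?_⟩
      rw [← hPQ k]
      exact ⟨z * (c k)⁻¹, hk, by simp [mul_assoc]⟩
  · rintro (h | ⟨k, hk⟩)
    · exact ⟨g⁻¹ * y, Or.inl (H.mul_mem (H.inv_mem hg) h), by simp⟩
    · rw [← hPQ k] at hk
      obtain ⟨w, hw, hwy⟩ := hk
      have hwy' : g * w = y * (c k)⁻¹ := hwy
      refine ⟨g⁻¹ * y, Or.inr ⟨k, ?_⟩, by simp⟩
      have : g⁻¹ * y * (c k)⁻¹ = w := by
        rw [mul_assoc, ← hwy']
        group
      rw [this]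
      exact hw

end pieces

/-- Measurability of a family of closed sets moved by a measurable family of translations. -/
theorem measurableSet_translate_inter {G : Type u} {X : Type v} [Group G] [TopologicalSpace G]
    [IsTopologicalGroup G] [SecondCountableTopology G] [MeasurableSpace G] [BorelSpace G]
    [MeasurableSpace X] {j : X → G} (hj : Measurable j) {Φ : X → Set G}
    (hΦ : ∀ U : Set G, IsOpen U → MeasurableSet {x | (Φ x ∩ U).Nonempty}) {U : Set G}
    (hU : IsOpen U) : MeasurableSet {x | (((fun h => j x * h) '' Φ x) ∩ U).Nonempty} := by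
  obtain ⟨B, hBc, -, hB⟩ := exists_countable_basis G
  have h1 : {x | (((fun h => j x * h) '' Φ x) ∩ U).Nonempty} =
      ⋃ p ∈ {p : Set G × Set G | p ∈ B ×ˢ B ∧ ∀ g ∈ p.1, ∀ h ∈ p.2, g * h ∈ U},
        (j ⁻¹' p.1 ∩ {x | (Φ x ∩ p.2).Nonempty}) := by
    ext x
    constructor
    · rintro ⟨_, ⟨h, hh, rfl⟩, hU'⟩
      have h2 : IsOpen {q : G × G | q.1 * q.2 ∈ U} := hU.preimage continuous_mul
      have h3 : (j x, h) ∈ {q : G × G | q.1 * q.2 ∈ U} := hU'
      obtain ⟨s, ⟨V, hV, W, hW, rfl⟩, hs, hsU⟩ :=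
        (hB.prod hB).exists_subset_of_mem_open h3 h2
      refine mem_biUnion (show (V, W) ∈ {p : Set G × Set G | p ∈ B ×ˢ B ∧
        ∀ g ∈ p.1, ∀ h ∈ p.2, g * h ∈ U} from ⟨⟨hV, hW⟩, fun g hg h hh =>
          hsU (mk_mem_prod hg hh)⟩) ?_
      exact ⟨hs.1, ⟨h, hh, hs.2⟩⟩
    · intro hx
      obtain ⟨p, ⟨_, hp⟩, hx1, ⟨h, hh, hhp⟩⟩ := mem_iUnion₂.1 hx
      exact ⟨j x * h, ⟨h, hh, rfl⟩, hp _ hx1 _ hhp⟩
  rw [h1]
  refine MeasurableSet.biUnion ((hBc.prod hBc).mono fun p hp => hp.1) fun p hp => ?_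
  exact (hj (hB.isOpen hp.1.1).measurableSet).inter (hΦ p.2 (hB.isOpen hp.1.2))

/-- **Main theorem.** -/
theorem leftActionUniversal {G : Type u} [Group G] [TopologicalSpace G] [IsTopologicalGroup G]
    [PolishSpace G] [MeasurableSpace G] [BorelSpace G] (N L : Subgroup G) [N.Normal]
    (hN : IsCompact (N : Set G)) (hL : IsClosed (L : Set G)) (hidx : L.index = 0)
    (hNL : (N : Set G).Finite ∨ ¬ IsOpen (L : Set G)) (φ : L →* G) (hφ : Continuous φ)
    (hs : ∀ g : G, ∃ l : L, ∃ n ∈ N, φ l * n = g) : LeftActionUniversal.{u, v} G := by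
  intro X _ _ _ hact
  obtain ⟨A, hA, hAN, hAsep⟩ := exists_invariants hact N hN
  obtain ⟨c, hcH, hcc, hLF, hR⟩ := exists_good_seq L hL hidx
  -- the family of translations
  obtain ⟨j, hj, hj1, hj2⟩ : ∃ j : X → G, Measurable j ∧
      (∀ x y, (j x)⁻¹ * j y ∈ L → j x = j y) ∧
      ∀ x y, j x = j y → (∃ n ∈ N, n • x = y) → x = y := by
    rcases hNL with hfin | ho
    · obtain ⟨i, hi, hi2⟩ := exists_index hact N hfin
      have hd : ∀ n m, (c n) * (c m)⁻¹ ∈ L → n = m := by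
        intro n m h
        by_contra hnm
        exact hcc n m hnm h
      refine ⟨fun x => (c (i x))⁻¹, (measurable_from_nat (f := fun n => (c n)⁻¹)).comp hi, ?_, ?_⟩
      · intro x y h
        have h1 : c (i x) * (c (i y))⁻¹ ∈ L := by simpa using h
        show (c (i x))⁻¹ = (c (i y))⁻¹
        rw [hd _ _ h1]
      · intro x y h hxy
        have h' : (c (i x))⁻¹ = (c (i y))⁻¹ := h
        refine hi2 x y (hd _ _ ?_) hxy
        rw [← h', mul_inv_cancel]
        exact L.one_mem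
    · obtain ⟨q, hq, hq2⟩ := exists_cantor L hL ho
      obtain ⟨ι, hι, ιinj⟩ :=
        MeasurableSpace.measurable_injection_nat_bool_of_countablySeparated X
      have h0 : ∀ x y, (q (ι x))⁻¹ * q (ι y) ∈ L → x = y := by
        intro x y h
        by_contra hxy
        exact hq2 _ _ (fun h' => hxy (ιinj h')) h
      refine ⟨fun x => q (ι x), hq.comp hι, ?_, ?_⟩
      · intro x y h
        show q (ι x) = q (ι y)
        rw [h0 x y h]
      · intro x y h _
        have h' : q (ι x) = q (ι y) := h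
        refine h0 x y ?_
        rw [← h', inv_mul_cancel]
        exact L.one_mem
  -- the coding of the action of `L`
  have : PolishSpace L := hL.polishSpace
  have hactL : Measurable fun p : L × X => φ p.1 • p.2 :=
    hact.comp ((hφ.measurable.comp measurable_fst).prodMk measurable_snd)
  obtain ⟨F, hFc, hFe, hFm, hF1, hF2⟩ := exists_closed_coding (fun (l : L) (x : X) => φ l • x)
    (fun g h x => by rw [map_mul, mul_smul]) hactL A hA
  -- the pieces
  let P : X → ℕ → Set G := fun x k =>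
    if Even k then (L : Set G) else Subtype.val '' F x (k / 2)
  have hPe : ∀ x k, Even k → P x k = L := fun x k hk => by simp [P, hk]
  have hPo : ∀ x k, ¬ Even k → P x k = Subtype.val '' F x (k / 2) := fun x k hk => by
    simp [P, hk]
  have hPH : ∀ x k, P x k ⊆ L := by
    intro x k
    by_cases hk : Even k
    · rw [hPe x k hk]
    · rw [hPo x k hk]
      rintro _ ⟨l, _, rfl⟩
      exact l.2
  have hPc : ∀ x k, IsClosed (P x k) := by
    intro x k
    by_cases hk : Even k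
    · rw [hPe x k hk]
      exact hL
    · rw [hPo x k hk]
      exact hL.isClosedEmbedding_subtypeVal.isClosedMap _ (hFc x _)
  have hPeq : ∀ (l : L) x k, (fun h => (l : G) * h) '' P x k = P (φ l • x) k := by
    intro l x k
    by_cases hk : Even k
    · rw [hPe x k hk, hPe _ k hk]
      ext y
      constructor
      · rintro ⟨z, hz, rfl⟩
        exact L.mul_mem l.2 hz
      · intro hy
        exact ⟨(l : G)⁻¹ * y, L.mul_mem (L.inv_mem l.2) hy, by simp⟩
    · rw [hPo x k hk, hPo _ k hk, hFe l x (k / 2), image_image, image_image]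
      rfl
  have hPm : ∀ k (U : Set G), IsOpen U → MeasurableSet {x | (P x k ∩ U).Nonempty} := by
    intro k U hU
    by_cases hk : Even k
    · simp only [hPe _ k hk]
      exact MeasurableSet.const _
    · have h1 := hFm (k / 2) (Subtype.val ⁻¹' U) (hU.preimage continuous_subtype_val)
      convert h1 using 1
      ext x
      show (P x k ∩ U).Nonempty ↔ _
      rw [hPo x k hk]
      constructor
      · rintro ⟨_, ⟨l, hl, rfl⟩, hlU⟩
        exact ⟨l, hl, hlU⟩
      · rintro ⟨l, hl, hlU⟩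
        exact ⟨l, ⟨l, hl, rfl⟩, hlU⟩
  -- the glued sets
  let Φ : X → Set G := fun x => glue L c (P x)
  have hΦc : ∀ x, IsClosed (Φ x) := fun x => isClosed_glue hL hLF (hPc x) (hPH x)
  have hΦm : ∀ U : Set G, IsOpen U → MeasurableSet {x | (Φ x ∩ U).Nonempty} := by
    intro U hU
    have h1 : {x | (Φ x ∩ U).Nonempty} = {_x | ((L : Set G) ∩ U).Nonempty} ∪
        ⋃ k, {x | (P x k ∩ (fun h => h * c k) ⁻¹' U).Nonempty} := by
      ext x
      constructor
      · rintro ⟨y, hy | ⟨k, hk⟩, hyU⟩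
        · exact Or.inl ⟨y, hy, hyU⟩
        · refine Or.inr (mem_iUnion.2 ⟨k, y * (c k)⁻¹, hk, ?_⟩)
          show y * (c k)⁻¹ * c k ∈ U
          simpa using hyU
      · rintro (⟨y, hy, hyU⟩ | hx)
        · exact ⟨y, Or.inl hy, hyU⟩
        · obtain ⟨k, h, hh, hhU⟩ := mem_iUnion.1 hx
          exact ⟨h * c k, Or.inr ⟨k, by simpa using hh⟩, hhU⟩
    rw [h1]
    refine (MeasurableSet.const _).union (MeasurableSet.iUnion fun k => ?_)
    exact hPm k _ (hU.preimage (continuous_mul_const (c k)))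
  -- invariance under `N`
  have hFN : ∀ n ∈ N, ∀ x, F (n • x) = F x := by
    intro n hn x
    apply hF1
    intro l k
    have h1 : φ l • n • x = (φ l * n * (φ l)⁻¹) • φ l • x := by
      simp [smul_smul]
    show φ l • n • x ∈ A k ↔ φ l • x ∈ A k
    rw [h1]
    exact hAN k _ ((inferInstance : N.Normal).conj_mem n hn (φ l)) _
  have hPN : ∀ n ∈ N, ∀ x, P (n • x) = P x := by
    intro n hn x
    funext k
    by_cases hk : Even k
    · rw [hPe _ k hk, hPe _ k hk]
    · rw [hPo _ k hk, hPo _ k hk, hFN n hn x]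
  -- rigidity
  have hrig : ∀ x y (g : G), (fun h => g * h) '' Φ y = Φ x →
      g ∈ L ∧ ∃ g' : G, (g = 1 → g' ∈ N) ∧ g' • y = x := by
    intro x y g hg
    obtain ⟨hgL, hgP⟩ := glue_rigid hcc hcH hR (hPH y) (hPH x) (hPe y) hg
    refine ⟨hgL, ?_⟩
    have h1 : F (φ ⟨g, hgL⟩ • y) = F x := by
      funext k
      have h2 := hgP (2 * k + 1)
      have hk : ¬ Even (2 * k + 1) := by simp
      have h3 := hPeq ⟨g, hgL⟩ y (2 * k + 1)
      have h4 : P (φ ⟨g, hgL⟩ • y) (2 * k + 1) = P x (2 * k + 1) := h3.symm.trans h2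
      rw [hPo _ _ hk, hPo _ _ hk] at h4
      have h5 : (2 * k + 1) / 2 = k := by omega
      rw [h5] at h4
      exact Subtype.val_injective.image_injective h4
    obtain ⟨l, hl⟩ := hF2 _ _ h1
    obtain ⟨n, hn, hnx⟩ := hAsep _ _ hl
    have hnx' : n • φ l • φ ⟨g, hgL⟩ • y = φ l • x := hnx
    refine ⟨(φ l)⁻¹ * n * φ l * φ ⟨g, hgL⟩, ?_, ?_⟩
    · rintro rfl
      have h6 : φ (⟨1, hgL⟩ : L) = 1 := map_one φ
      rw [h6, mul_one]
      have := (inferInstance : N.Normal).conj_mem n hn (φ l)⁻¹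
      simpa using this
    · rw [mul_smul, mul_smul, mul_smul, hnx', inv_smul_smul]
  let f : X → Closeds G := fun x => translate (j x) ⟨Φ x, hΦc x⟩
  refine ⟨f, ?_, ?_, ?_⟩
  · refine @measurable_generateFrom _ _ _ _ _ ?_
    rintro _ ⟨U, hU, rfl⟩
    exact measurableSet_translate_inter hj hΦm hU
  · intro x y hxy
    have h1 : (fun h => j x * h) '' Φ x = (fun h => j y * h) '' Φ y :=
      congrArg (fun F : Closeds G => (F : Set G)) hxy
    have h2 : (fun h => ((j x)⁻¹ * j y) * h) '' Φ y = Φ x := by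
      have h3 : (fun h => ((j x)⁻¹ * j y) * h) '' Φ y =
          (fun h => (j x)⁻¹ * h) '' ((fun h => j y * h) '' Φ y) := by
        rw [image_image]
        simp only [mul_assoc]
      rw [h3, ← h1, image_image]
      simp
    obtain ⟨hL', g', hg', hgy⟩ := hrig x y _ h2
    have hjj := hj1 x y hL'
    have h4 : (j x)⁻¹ * j y = 1 := by rw [hjj, inv_mul_cancel]
    exact (hj2 y x hjj.symm ⟨g', hg' h4, hgy⟩).symm
  · intro x y
    constructor
    · rintro ⟨g, rfl⟩
      obtain ⟨l, n, hn, rfl⟩ := hs g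
      refine ⟨j ((φ l * n) • y) * l * (j y)⁻¹, ?_⟩
      have h1 : (fun h => (l : G) * h) '' Φ y = Φ ((φ l * n) • y) := by
        refine image_glue l.2 fun k => ?_
        rw [mul_smul, ← hPeq l (n • y) k, hPN n hn y]
      apply Closeds.ext
      show (fun h => (j ((φ l * n) • y) * l * (j y)⁻¹) * h) '' ((fun h => j y * h) '' Φ y) =
        (fun h => j ((φ l * n) • y) * h) '' Φ ((φ l * n) • y)
      rw [← h1, image_image, image_image]
      simp [mul_assoc]
    · rintro ⟨g, hg⟩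
      have h1 : (fun h => g * h) '' ((fun h => j y * h) '' Φ y) = (fun h => j x * h) '' Φ x :=
        congrArg (fun F : Closeds G => (F : Set G)) hg
      have h2 : (fun h => ((j x)⁻¹ * g * j y) * h) '' Φ y = Φ x := by
        have h3 : (fun h => ((j x)⁻¹ * g * j y) * h) '' Φ y =
            (fun h => (j x)⁻¹ * h) '' ((fun h => g * h) '' ((fun h => j y * h) '' Φ y)) := by
          rw [image_image, image_image]
          simp only [mul_assoc]
        rw [h3, h1, image_image]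
        simp
      obtain ⟨_, g', _, hgy⟩ := hrig x y _ h2
      exact ⟨g', hgy⟩

end Pool.Agent.LeftAct
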